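import Pool.Agent.Lib.OG25.Asym

open Pool.Agent.Lib.MP_90961b_co

namespace Pool.Agent.Results.MP_90961b_co.ParityBound

/-- For all large `n` with `n ≡ 0, 1 (mod 4)`, OBreaker wins the orientation game on `K_n`
(OMaker moving first) for every tournament on `k ≥ 3.21 * log_2 n` vertices. -/
theorem result :
    ∃ N : ℕ, ∀ n : ℕ, N ≤ n → (n % 4 = 0 ∨ n % 4 = 1) →
      ∀ k : ℕ, 321 / 100 * Real.logb 2 n ≤ k →
        ∀ T : Fin k → Fin k → Prop, IsTournament T →
          BreakerWins T (∅ : Finset (Fin n × Fin n)) true :=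
  Pool.Agent.Lib.OG25.breaker_parity

end Pool.Agent.Results.MP_90961b_co.ParityBound
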