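import Pool.Agent.Lib.MP_90961b_co.Asym

open Pool.Agent.Lib.MP_90961b_co

namespace Pool.Agent.Results.MP_90961b_co.UpperBound

/-- For every `c > 2 + 2 * sqrt (2/3) = 3.632...` and all large `n`, OBreaker wins the orientation
game on `K_n` (OMaker moving first) for every tournament on `k ≥ c * log_2 n` vertices. -/
theorem result (c : ℝ) (hc : 2 + 2 * Real.sqrt (2 / 3) < c) :
    ∃ N : ℕ, ∀ n : ℕ, N ≤ n → ∀ k : ℕ, c * Real.logb 2 n ≤ k →
      ∀ T : Fin k → Fin k → Prop, IsTournament T →
        BreakerWins T (∅ : Finset (Fin n × Fin n)) true :=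
  breaker_asym c hc

end Pool.Agent.Results.MP_90961b_co.UpperBound
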